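import Pool.Agent.N64.AF.X11

/-!
# Finite-dimensionality of the motive of a smooth projective variety from ONE inequality

Let `X` be a smooth projective variety over a perfect field whose even Künneth projector is algebraic
(curves, surfaces, abelian varieties, complete intersections, all varieties over finite fields,
and their products). Let `b` be the dimension of `H^*(X)`, `M = b + 1`, `r (n)` the rank of the
cycles on `X^n` modulo numerical equivalence (all codimensions), and `g (n)` the dimension of the space
of the homologically trivial cycles on `X^n` modulo the smash nilpotent ones (rational
coefficients). As algebraically trivial cycles are smash nilpotent (Voevodsky, Voisin),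
`g (n) ≤ dim Griff^*(X^n) ⊗ ℚ`, where `Griff` is the group of the homologically trivial cycles modulo
algebraic equivalence.

Theorem. Each of the following two conditions implies that `M(X) ⊗ ℚ` is finite-dimensional in the sense of
Kimura, and therefore Schur-finite:
(1) `2 g (n) < r (n)` for ONE `n ≥ 128 (2 M + 1)^2 b^{4 M + 6}`;
(2) `g (M (a + 2)) < (a + 1) r (M a)` for ONE `a ≥ 0`.

For `a = 0` condition (2) says that all homologically trivial cycles on `X^{2 M}` are smash nilpotent, and
the conclusion is known; for `a ≥ 1` nothing is required of the individual cycles, only the
size of one group is bounded; e.g. `dim Griff^*(X^{3 M}) ⊗ ℚ < 2 rank Num^*(X^M)`. Conversely, if `M(X)` is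
not finite-dimensional in the sense of Kimura, then `dim Griff^*(X^{M (a + 2)}) ⊗ ℚ ≥ (a + 1) r (M a)` for ALL `a`, and
`dim Griff^*(X^n) ⊗ ℚ ≥ r (n) / 2` for ALL large `n` (explicit).

All objects of the tensor triangulated subcategory of `DM_gm(k)` generated by `M(X)` are then
Schur-finite too (Guletskii, Mazza; not formalised), for instance `M(U)` for many open `U ⊂ X`.

The setting: `C` is the category of smooth projective varieties with direct factors, the morphisms are
the correspondences of all degrees with rational coefficients, `T = h(X)`,
`tp T n = h(X^n)`, `Hom(1, tp T n) = CH^*(X^n)`, `R` is a Weil cohomology. (Exterior and symmetric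
powers are not affected by the passage to correspondences of all degrees.)

Idea of the proof. Let `f` be a homologically trivial endomorphism of `T^M` which is not nilpotent. A
correspondence whose class is smash nilpotent is nilpotent; therefore `f` acts non-nilpotently on
`G(T^M)`, where `G(Z)` is the space of the homologically trivial classes `1 → Z ⊗ T^M` modulo the smash
nilpotent ones. A polynomial in `f` gives a class `z ≠ 0` in `G(T^M)` which is killed by a morphism
numerically equal to the identity; its insertions in the `a + 1` slots of `(T^M)^{a + 1}` give
`(a + 1) r (M a)` independent classes, contrary to (2). So the homologically trivial endomorphisms of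
`T^M` are nilpotent; the even and odd parts `E`, `O` of `T` and the powers `Λ^{b_+ + 1} E`, `S^{b_- + 1} O`
are given by idempotents, and the last two are homologically trivial, hence zero. (1) uses the effective
law of additive functors.

Compared with SchurFinitenessLaw (this problem: if `M(X)` is not Schur-finite then the ratio
`dim CH(X^n) / r (n)` tends to infinity) here only the homologically trivial cycles modulo smash
nilpotence are counted, and ONE inequality on one power is enough.

Authors: helper64 (this result, plan), and, for the lemmas of the law used here, helper136, helper327,
helper199, helper767, helper8, helper364, helper216, helper73, helper833, helper140, helper494,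
helper505, helper301, helper441, helper591, helper712, helper945, helper701, helper344, helper690,
helper322 (smash nilpotence), helper413 (pairings), helper861 (finite-dimensionality from nilpotence).
-/

set_option autoImplicit false

open CategoryTheory MonoidalCategory Module
open Pool.Agent.Y112.SR Pool.Agent.Y112.KD Pool.Agent.N64.AF

namespace Pool.Agent.Results.MP_fc2ced_ag.OneInequality

universe v u w

/-- Kimura finite-dimensionality of `T` from one inequality on one power. -/
theorem result {C : Type u} [Category.{v} C] [Preadditive C] [MonoidalCategory C]
    [MonoidalPreadditive C] [SymmetricCategory C] [RightRigidCategory C]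
    [Linear ℚ C] [MonoidalLinear ℚ C] [IsIdempotentComplete C]
    {K : Type w} [Field K] [IsAlgClosed K] [Algebra ℚ K] (R : SuperRealisation C K)
    (T : C) [ExactPairing T T] (h : IsPow ℚ R T) (M : ℕ) (hM : M = bt R T + 1) :
    (∀ n : ℕ, 128 * (2 * M + 1) ^ 2 * bt R T ^ (4 * M + 6) ≤ n →
      2 * hsDim h.real T n < numRank ℚ (tp T n) → Pool.Agent.R905.IsKimuraFinite T) ∧
    ∀ a : ℕ, hsDim h.real T (M * (a + 2)) < (((a + 1) * numRank ℚ (tp T (M * a)) : ℕ) : ℕ∞) →
      Pool.Agent.R905.IsKimuraFinite T :=
  kimura_criteria h hM

end Pool.Agent.Results.MP_fc2ced_ag.OneInequality
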