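import Pool.Agent.Z125.UN.MotUni
import Pool.Agent.N882.UE.OpnSmooth
import Pool.Agent.N882.UE.ShortFrac
import Pool.Agent.N882.UE.Tb

/-!
# MP_fc2ced_ag: Schur-finiteness of the motives of principal open subschemes of affine spaces

`D` are the motives `M X` and the motives with compact support `Mc X` of the schemes over the perfect field
`k`, in the category `C` of geometric motives with rational coefficients; `IsMotives D` lists the standard
properties which are used (starting library `Pool.Agent.Z125.UN.MotDefs`). `FT True X`: `X` is separated and
of finite type over `k`.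

`opnS f` is the principal open subscheme `f_1 ⋯ f_r ≠ 0` of the affine space; `bform t l = ∑ t_ijl x_i y_j` and
`few k E = ∑_{(i, j) ∈ E} x_i y_j` are bilinear forms in `x_1, …, x_a` and `y_1, …, y_b`; `bilS t` is the (singular)
closed subscheme of the affine space given by the bilinear equations `bform t l = 0`; and `tripS k H` is the
smooth affine cubic hypersurface `∑_{(i, j, l) ∈ H} x_i y_j z_l = 1`.
-/

set_option autoImplicit false

open CategoryTheory MonoidalCategory AlgebraicGeometry Pool.Agent.TH137.DG Pool.Agent.Y116.UV
  Pool.Agent.Z125.UN Pool.Agent.N882.UE Pool.Agent.Q282.UK Pool.Agent.Q282.UZ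

namespace Pool.Agent.Results.MP_fc2ced_ag.PrincipalOpens

universe v u

variable {k : Type} [Field k] {C : Type u} [Category.{v} C] [MonoidalCategory C]
  [SymmetricCategory C] [Preadditive C] [Linear ℚ C] [Limits.HasZeroObject C] [HasShift C ℤ]
  [∀ n : ℤ, (shiftFunctor C n).Additive] [Pretriangulated C]

/-- The motives of the smooth schemes of dimension at most `n` are Schur-finite. -/
def SmoothDim (D : Motives k C) (n : ℕ) : Prop :=
  ∀ X : Sch k, FT True X → Smooth X.hom → topologicalKrullDim X.left ≤ n → IsSchurFinite (D.M X)

/-- The motives of the principal opens `b_1 ⋯ b_r ≠ 0` of affine spaces defined by bilinear forms, with at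
most `m` variables `x` or at most `m` variables `y`, are Schur-finite. -/
def Variables (D : Motives k C) (m : ℕ) : Prop :=
  ∀ (a b r : ℕ) (t : Fin a → Fin b → Fin r → k), (a ≤ m ∨ b ≤ m) →
    IsSchurFinite (D.M (opnS (bform t)))

/-- The motives of the principal opens defined by at most `m` bilinear forms are Schur-finite. -/
def Forms (D : Motives k C) (m : ℕ) : Prop :=
  ∀ (a b r : ℕ) (t : Fin a → Fin b → Fin r → k), r ≤ m → IsSchurFinite (D.M (opnS (bform t)))

/-- The motives with compact support of the systems of bilinear equations with at most `m` variables `x` or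
at most `m` variables `y`, and of the systems of at most `m` bilinear equations, are Schur-finite. -/
def Systems (D : Motives k C) (m : ℕ) : Prop :=
  ∀ (a b c : ℕ) (t : Fin a → Fin b → Fin c → k), (a ≤ m ∨ b ≤ m ∨ c ≤ m) →
    IsSchurFinite (D.Mc (bilS t))

/-- Q1 for `k`: the motives of all smooth schemes are Schur-finite. -/
def Question (D : Motives k C) : Prop :=
  ∀ X : Sch k, FT True X → Smooth X.hom → IsSchurFinite (D.M X)

/-- The motives of the principal opens of affine spaces defined by bilinear forms with coefficients `1` and
at most three terms are Schur-finite. -/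
def ThreeTermOpens (D : Motives k C) : Prop :=
  ∀ (a b r : ℕ) (E : Fin r → Finset (Fin a × Fin b)), (∀ l, (E l).card ≤ 3) →
    IsSchurFinite (D.M (opnS fun l => few k (E l)))

/-- The motives of the hypersurfaces `∑_{(i, j, l) ∈ H} x_i y_j z_l = 1` are Schur-finite. -/
def TripleSets (D : Motives k C) : Prop :=
  ∀ (a b c : ℕ) (H : Finset (Fin a × Fin b × Fin c)), IsSchurFinite (D.M (tripS k H))

/-- **Theorem.** Let `k` be a perfect field.
(1) For every `n` the following are equivalent: the motives of all smooth schemes of dimension at most `n`
are Schur-finite; the motives of the principal opens `b_1 ⋯ b_r ≠ 0` of affine spaces, the `b_l` bilinear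
forms over `k` in `x` and `y`, are Schur-finite for any `r`, if there are at most `n + 2` variables `x` or at
most `n + 2` variables `y`; the same for `r ≤ n + 2` bilinear forms in any numbers of variables; the motives
with compact support of the systems of bilinear equations with at most `n + 2` variables in one of the blocks
or at most `n + 2` equations are Schur-finite.
(2) The motives of the principal opens `b_1 ⋯ b_r ≠ 0` with at most three variables in one of the blocks, and
of those with `r ≤ 3`, are Schur-finite, and so are the motives with compact support of the systems of bilinear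
equations with at most three variables in one of the blocks or at most three equations.
(3) If `k = ℚ` or `k = 𝔽_p` (every element is a quotient of integers), the following are equivalent: Q1 for
`k`; Schur-finiteness for the principal opens defined by bilinear forms with coefficients `1` and at most
three terms; for the cubic hypersurfaces `∑_{(i, j, l) ∈ H} x_i y_j z_l = 1` of the finite sets `H`. -/
theorem result [PerfectField k] (D : Motives k C) (hD : IsMotives D) :
    (∀ n : ℕ, [SmoothDim D n, Variables D (n + 2), Forms D (n + 2), Systems D (n + 2)].TFAE) ∧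
    (Variables D 3 ∧ Forms D 3 ∧ Systems D 3) ∧
    (Pool.Agent.Q193.LT.Frac k → [Question D, ThreeTermOpens D, TripleSets D].TFAE) := by
  have hB := bnd_sf hD
  have hC := clo2_of_bnd hB
  have ho : ∀ {σ : Type} [Finite σ] {r : ℕ} (f : Fin r → MvPolynomial σ k),
      IsSchurFinite (D.M (opnS f)) ↔ IsSchurFinite (D.Mc (opnS f)) :=
    fun f => hD.duality _ (ft_opnS f) (smooth_opnS f)
  have key : ∀ n : ℕ, [SmoothDim D n, Variables D (n + 2), Forms D (n + 2),
      Systems D (n + 2)].TFAE := by
    intro n
    have h1 := gen_tfae hB n
    have h2 := opens_dim hB n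
    have hs : SmoothDim D n ↔ ∀ X : Sch k, FT True X → topologicalKrullDim X.left ≤ n →
        IsSchurFinite (D.Mc X) := by
      refine Iff.trans ?_ (h1.out 1 0)
      exact ⟨fun h X hX hs hn => (hD.duality X hX hs).mp (h X hX hs hn),
        fun h X hX hs hn => (hD.duality X hX hs).mpr (h X hX hs hn)⟩
    tfae_have 1 ↔ 2 := by
      refine hs.trans ((h2.out 0 1).trans ?_)
      exact ⟨fun h a b r t hm => (ho _).mpr (h a b r t hm),
        fun h a b r t hm => (ho _).mp (h a b r t hm)⟩
    tfae_have 1 ↔ 3 := by
      refine hs.trans ((h2.out 0 2).trans ?_)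
      exact ⟨fun h a b r t hm => (ho _).mpr (h a b r t hm),
        fun h a b r t hm => (ho _).mp (h a b r t hm)⟩
    tfae_have 1 ↔ 4 := by
      refine hs.trans ((h1.out 0 4).trans ?_)
      exact ⟨fun h a b c t hm => (bil_iff hB t).mpr (h a b c t hm),
        fun h a b c t hm => (bil_iff hB t).mp (h a b c t hm)⟩
    tfae_finish
  have c1 : SmoothDim D 1 := fun X hX hs hn => hD.curves X hX hs (by exact_mod_cast hn)
  refine ⟨key, ⟨((key 1).out 0 1).mp c1, ((key 1).out 0 2).mp c1, ((key 1).out 0 3).mp c1⟩,
    fun hF => ?_⟩
  have hq : (∀ X : Sch k, FT True X → IsSchurFinite (D.Mc X)) → Question D :=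
    fun h X hX hs => (hD.duality X hX hs).mpr (h X hX)
  tfae_have 1 → 2 := fun h a b r E _ => h _ (ft_opnS _) (smooth_opnS _)
  tfae_have 2 → 1 := by
    intro h
    refine hq ((opens_few (short_frac hF) hC).mpr fun a b r E hE => ?_)
    exact (ho _).mp (h a b r E hE)
  tfae_have 1 → 3 := fun h a b c H => h _ (ft_aff True) (smooth_aff (trip_smooth H))
  tfae_have 3 → 1 := by
    intro h
    refine hq fun X hX => Pool.Agent.Q193.LT.universal_frac hF hB.toUni (fun a b c H => ?_) X hX
    exact (hD.duality _ (ft_aff True) (smooth_aff (trip_smooth H))).mp (h a b c H)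
  tfae_finish

end Pool.Agent.Results.MP_fc2ced_ag.PrincipalOpens
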