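import Pool.Agent.N64.AF.X17

/-!
# Finite-dimensionality of `M(X)`: a gap for the growth rate of the Griffiths groups of the powers of `X`

Let `X` be a smooth projective variety over a perfect field whose even Künneth projector is algebraic
(curves, surfaces, abelian varieties, complete intersections, all varieties over finite fields, and
their products), `b = dim H^*(X)`, `M = b + 1`, `r (n)` the rank of the cycles on `X^n` modulo numerical
equivalence (all codimensions) and `g (n)` the dimension of the space of the homologically trivial cycles on `X^n`
modulo the smash nilpotent ones (rational coefficients). As algebraically trivial cycles are smash nilpotent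
(Voevodsky, Voisin), `g (n) ≤ dim Griff^*(X^n) ⊗ ℚ`, `Griff` = homologically trivial cycles modulo algebraic equivalence.

Theorem. Each of the following two conditions implies that `M(X) ⊗ ℚ` is finite-dimensional in the sense of
Kimura, and therefore Schur-finite:
(1) `g (2 M n) < ∑_{t = 1}^{n} C(n, t) r (2 M (n - t))` for ONE `n`;
(2) `(M n + 1)^(b^2) g (2 M n) + b^(2 M n) < (b^(2 M) + 1)^n` for ONE `n`.

Since `r (n) ≤ b^n`, and `r (n) = b^n` up to a polynomial factor for even `n`, (2) says that there is a gap for
the growth rate: if `M(X)` is not finite-dimensional then
  `liminf (dim Griff^*(X^{2 M n}) ⊗ ℚ)^{1 / 2 M n} ≥ (b^{2 M} + 1)^{1 / 2 M} > b = lim r (2 M n)^{1 / 2 M n}`: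
the Griffiths groups of the powers grow faster than the cycles modulo numerical equivalence by an
EXPONENTIAL factor. Conversely any bound `dim Griff^*(X^{2 M n}) ⊗ ℚ ≤ c β^{2 M n}` with `β < (b^{2 M} + 1)^{1 / 2 M}` for
infinitely many `n` implies finite-dimensionality. No conjecture is assumed but the sign conjecture for `X`.

The setting: `C` is the category of smooth projective varieties with direct factors, the morphisms are
the correspondences of all degrees with rational coefficients, `T = h(X)`,
`tp T n = h(X^n)`, `Hom(1, tp T n) = CH^*(X^n)`, `R` is a Weil cohomology. (Exterior and symmetric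
powers are not affected by the passage to correspondences of all degrees.)

Idea of the proof. If `T` is not finite-dimensional then there is a homologically trivial
endomorphism `f` of `L = T^M` which is not nilpotent. Let `G(Z)` be the space of the homologically trivial
classes `1 → Z` modulo the smash nilpotent ones, `Y = L ⊗ L`, and suppose that `G(Y^n)` has finite dimension. `f`
acts on each of the `n` factors `Y`. By Fitting's lemma a polynomial `e` without constant term in `f`
acts as an idempotent on `G(Y^n)` for each of the `n` factors; therefore `G(Y^n)` is the direct sum of
subspaces `V_S`, `S` a subset of the set of the `n` factors (`e` acts as `1` in the factors in `S` and as `0` in the others). As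
`1 - e` is numerically equivalent to the identity, the products of classes on `Y^{n - |S|}` which are independent
modulo numerical equivalence and of the class of `f e` in the factors in `S` have independent
images in `V_S` for `S ≠ ∅`. (2) follows from (1) and the lower bound `(n + 1)^(b^2) r (2 n) ≥ b^(2 n)`.

Compared with OneInequality (this problem: `g (M (a + 2)) < (a + 1) r (M a)` for one `a`): there the factor `a + 1` is
linear, here the factor is exponential: `∑ C(n, t) r (2 M (n - t)) / r (2 M n)` is about `(1 + b^{- 2 M})^n`. (For small
`n` the criterion of OneInequality is the better one.) SchurFinitenessLaw, DefectGrowth (MP_550f75_ag), ZeroOneLaw (MP_550f75_ag):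
comparison with `r (n)` or a constant multiple of it, i.e. with the rate `b`.

Authors: helper64 (this result, plan), and, for the lemmas of the law used here, helper136, helper327,
helper199, helper767, helper8, helper364, helper216, helper73, helper833, helper140, helper494,
helper505, helper301, helper441, helper591, helper712, helper945, helper701, helper344, helper690,
helper322 (smash nilpotence), helper413 (pairings), helper861 (finite-dimensionality from nilpotence).
-/

set_option autoImplicit false

open CategoryTheory MonoidalCategory Module Finset
open Pool.Agent.Y112.SR Pool.Agent.Y112.KD Pool.Agent.N64.AF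

namespace Pool.Agent.Results.MP_fc2ced_ag.RateGap

universe v u w

/-- The rate gap. -/
theorem result {C : Type u} [Category.{v} C] [Preadditive C] [MonoidalCategory C]
    [MonoidalPreadditive C] [SymmetricCategory C] [RightRigidCategory C]
    [Linear ℚ C] [MonoidalLinear ℚ C] [IsIdempotentComplete C]
    {K : Type w} [Field K] [IsAlgClosed K] [Algebra ℚ K] (R : SuperRealisation C K)
    (T : C) [ExactPairing T T] (h : IsPow ℚ R T) (M : ℕ) (hM : M = bt R T + 1) :
    (∀ n : ℕ, hsDim h.real T (2 * M * n) <
      ((∑ ij ∈ antidiagonal n with 0 < ij.1,
        n.choose ij.1 * numRank ℚ (tp T (2 * M * ij.2)) : ℕ) : ℕ∞) →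
      Pool.Agent.R905.IsKimuraFinite T) ∧
    ∀ n : ℕ, (((M * n + 1) ^ (bt R T ^ 2) : ℕ) : ℕ∞) * hsDim h.real T (2 * M * n) +
      ((bt R T ^ (2 * M * n) : ℕ) : ℕ∞) < (((bt R T ^ (2 * M) + 1) ^ n : ℕ) : ℕ∞) →
      Pool.Agent.R905.IsKimuraFinite T :=
  kimura_gap h hM

end Pool.Agent.Results.MP_fc2ced_ag.RateGap
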