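import Pool.Agent.N132.IXS.Conv

/-!
# A law for Schur-finiteness

Let `X` be any smooth projective variety over any field, `W` any Weil cohomology theory with
coefficient field `K`, and `A` any theory of cycles with coefficients in `K` between rational and
homological equivalence (for example modulo rational equivalence). Then either
`dim A(X^n) / rank A(X^n)/num` tends to infinity, or

* the motive of `X` (for the equivalence relation of `A`) is Schur-finite: the graphs of the
  permutations of the factors of `X^n` are linearly dependent in `A(X^n × X^n)` for some `n`;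
* homological and numerical equivalence agree on all powers of `X`;
* the ratios converge to an integer `N ≥ 1`, and every composition of `N` numerically trivial
  correspondences between powers of `X` is zero.
-/

set_option autoImplicit false

open scoped ENNReal
open Filter Topology
open Pool.Agent.H914 Pool.Agent.H914.VarClass Pool.Agent.H914.VarClass.Obj
open Pool.Agent.Y133.Half Pool.Agent.N132.IXS

universe u v w

namespace Pool.Agent.Results.MP_fc2ced_ag.SchurFinitenessLaw

/-- **The Schur finiteness law.** -/
theorem result {k : Type u} [Field k] {𝒱 : VarClass k} {ops : CycleOps 𝒱}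
    {W : WeilCohomology.{u, v} ops} (C : CycleTheory.{u, v, w} W) (X : 𝒱.Obj) :
    Tendsto (fun n => C.ratio (pw X n)) atTop (𝓝 ⊤) ∨
      (∃ n : ℕ, ¬ LinearIndependent W.K
        fun σ : Equiv.Perm (Fin (n + 1)) => C.graph (tau X n σ)) ∧
      (∀ (n : ℕ) (x : C.A (pw X n)), ChowTheory.NumTriv x → C.cl _ x = 0) ∧
      ∃ N : ℕ, 1 ≤ N ∧ Tendsto (fun n => C.ratio (pw X n)) atTop (𝓝 (N : ℝ≥0∞)) ∧
        ∀ m n Γ, C.NComp X N m n Γ → Γ = 0 :=
  schur_final C X

end Pool.Agent.Results.MP_fc2ced_ag.SchurFinitenessLaw
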